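import Pool.Agent.J6H45.CoordRestr.Main
import Pool.Agent.J6H9.PL.Stm

/-! PL-LG: homeomorphisms which are locally limits of diffeomorphisms are limits of diffeomorphisms (helper73). -/

set_option autoImplicit false

open Filter Topology
open Pool.Agent.J6H45.CoordRestr
open Pool.Agent.J6H9.PL

namespace Pool.Agent.J6H73.PL.LG

variable {n : ℕ}

theorem cl_of_diffeo {a : E n ≃ₜ E n} (ha : a ∈ Diffeos n 1) : a ∈ Cl n := Approximable.of_mem ha

theorem cl_one : (1 : E n ≃ₜ E n) ∈ Cl n := cl_of_diffeo Diffeos_one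

theorem cl_mul {a b : E n ≃ₜ E n} (ha : a ∈ Cl n) (hb : b ∈ Cl n) : a * b ∈ Cl n :=
  Approximable.mul (fun _ h1 _ h2 => Diffeos_mul h1 h2) ha hb

theorem diffeo_inv {a : E n ≃ₜ E n} (ha : a ∈ Diffeos n 1) : a⁻¹ ∈ Diffeos n 1 := ⟨ha.2, ha.1⟩

theorem cl_pow {a : E n ≃ₜ E n} (ha : a ∈ Cl n) (M : ℕ) : a ^ M ∈ Cl n := by
  induction M with
  | zero => rw [pow_zero]; exact cl_one
  | succ M ih => rw [pow_succ]; exact cl_mul ih ha

theorem cl_of_ball {h : E n ≃ₜ E n} (H : ∀ R : ℝ, 0 < R → ∃ f ∈ Cl n, ∀ x ∈ Metric.closedBall (0 : E n) R, f x = h x) :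
    h ∈ Cl n := by
  refine Approximable.trans (T := Cl n) ?_ (fun t ht => ht)
  rw [approximable_iff_ball]
  intro R hR ε hε
  obtain ⟨f, hf, hfx⟩ := H R hR
  exact ⟨f, hf, fun p hp => by rw [hfx p hp, dist_self]; exact hε⟩

/-- conjugation of a map with support in a set where `h = g` -/
theorem conj_eq {h g a : E n ≃ₜ E n} {U : Set (E n)} (hU : ∀ x ∈ U, h x = g x) (ha : ∀ x, x ∉ U → a x = x) :
    h * a * h⁻¹ = g * a * g⁻¹ := by
  have haU : ∀ x ∈ U, a x ∈ U := by
    intro x hx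
    by_contra hcon
    have h1 := a.injective (ha _ hcon)
    rw [h1] at hcon
    exact hcon hx
  ext1 y
  show h (a (h.symm y)) = g (a (g.symm y))
  by_cases hx : h.symm y ∈ U
  · have e1 : g.symm y = h.symm y := by
      rw [Homeomorph.symm_apply_eq, ← hU _ hx, Homeomorph.apply_symm_apply]
    rw [e1]
    exact hU _ (haU _ hx)
  · have hz : g.symm y ∉ U := by
      intro hz
      have h1 := hU _ hz
      rw [Homeomorph.apply_symm_apply] at h1
      apply hx
      rw [← h1, Homeomorph.symm_apply_apply]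
      exact hz
    rw [ha _ hx, ha _ hz, Homeomorph.apply_symm_apply, Homeomorph.apply_symm_apply]

theorem main (h1 : S_Inv) (h2 : S_Sm) : S_LG := by
  intro n h hloc
  classical
  choose g hg hev using hloc
  have hev' : ∀ p, ∃ ρ : ℝ, 0 < ρ ∧ ∀ y ∈ Metric.ball p (3 * ρ), h y = g p y := by
    intro p
    obtain ⟨ε, hε, H⟩ := Metric.eventually_nhds_iff.1 (hev p)
    exact ⟨ε / 3, by positivity, fun y hy => H (by
      have := Metric.mem_ball.1 hy
      linarith)⟩
  choose ρ hρ hgp using hev'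
  refine cl_of_ball fun R hR => ?_
  obtain ⟨t, -, ht⟩ := (isCompact_closedBall (0 : E n) (R + 1)).elim_nhds_subcover
    (fun p => Metric.ball p (ρ p)) (fun p _ => Metric.ball_mem_nhds p (hρ p))
  let ψ : ∀ p : E n, ContDiffBump p := fun p => ⟨ρ p, 2 * ρ p, hρ p, by linarith [hρ p]⟩
  let χ : ContDiffBump (0 : E n) := ⟨R, R + 1, hR, by linarith⟩
  let v : Finset (E n) → E n → E n := fun s x => (1 - ∏ i ∈ s, (1 - ψ i x)) • (χ x • x)
  have hvC : ∀ s, ContDiff ℝ 1 (v s) := by
    intro s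
    refine ContDiff.smul (contDiff_const.sub (contDiff_prod fun i _ => contDiff_const.sub (ψ i).contDiff)) ?_
    exact χ.contDiff.smul contDiff_id
  have hvS : ∀ s, HasCompactSupport (v s) := by
    intro s
    have e1 : HasCompactSupport (fun x : E n => χ x • x) := χ.hasCompactSupport.smul_right
    exact HasCompactSupport.smul_left (f := fun x : E n => 1 - ∏ i ∈ s, (1 - ψ i x)) e1
  have hprod : ∀ (s : Finset (E n)) (x : E n), 0 ≤ ∏ i ∈ s, (1 - ψ i x) ∧ ∏ i ∈ s, (1 - ψ i x) ≤ 1 := by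
    intro s x
    constructor
    · exact Finset.prod_nonneg fun i _ => by linarith [(ψ i).le_one (x := x)]
    · exact Finset.prod_le_one (fun i _ => by linarith [(ψ i).le_one (x := x)])
        (fun i _ => by linarith [(ψ i).nonneg (x := x)])
  have hvn : ∀ s x, ‖v s x‖ ≤ R + 1 := by
    intro s x
    show ‖(1 - ∏ i ∈ s, (1 - ψ i x)) • (χ x • x)‖ ≤ R + 1
    rw [norm_smul, norm_smul, Real.norm_eq_abs, Real.norm_eq_abs]
    obtain ⟨e1, e2⟩ := hprod s x
    rw [abs_of_nonneg (by linarith), abs_of_nonneg χ.nonneg]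
    by_cases hx : ‖x‖ ≤ R + 1
    · have e3 : χ x * ‖x‖ ≤ R + 1 := by
        have := mul_le_mul (χ.le_one (x := x)) hx (norm_nonneg x) zero_le_one
        linarith
      have e4 : 0 ≤ χ x * ‖x‖ := mul_nonneg χ.nonneg (norm_nonneg _)
      nlinarith
    · have e3 : χ x = 0 := χ.zero_of_le_dist (by
        rw [dist_zero_right]
        exact (not_le.1 hx).le)
      rw [e3]
      simp only [zero_mul, mul_zero]
      linarith
  have hlip : ∀ s, ∃ C : NNReal, LipschitzWith C (v s) := fun s =>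
    (hvC s).lipschitzWith_of_hasCompactSupport (hvS s) (by norm_num)
  choose C hC using hlip
  -- the choice of `η`
  obtain ⟨η, hη0, hη1, hηC, hηρ⟩ : ∃ η : ℝ, 0 < η ∧ η < 1 ∧ (∀ s ∈ t.powerset, η * C s ≤ 1 / 2) ∧
      ∀ j ∈ t, η * (R + 1) < ρ j := by
    have e0 : ∀ᶠ η : ℝ in 𝓝[>] 0, 0 < η := eventually_mem_nhdsWithin
    have e1 : ∀ᶠ η : ℝ in 𝓝[>] 0, η < 1 :=
      nhdsWithin_le_nhds (Iio_mem_nhds (by norm_num : (0:ℝ) < 1))
    have e2 : ∀ᶠ η : ℝ in 𝓝[>] 0, ∀ s ∈ t.powerset, η * C s ≤ 1 / 2 := by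
      rw [Filter.eventually_all_finset]
      intro s _
      have : Tendsto (fun η : ℝ => η * C s) (𝓝 0) (𝓝 (0 * C s)) := (continuous_id.mul continuous_const).tendsto 0
      rw [zero_mul] at this
      exact nhdsWithin_le_nhds (this.eventually (Iic_mem_nhds (by norm_num : (0:ℝ) < 1 / 2)))
    have e3 : ∀ᶠ η : ℝ in 𝓝[>] 0, ∀ j ∈ t, η * (R + 1) < ρ j := by
      rw [Filter.eventually_all_finset]
      intro j _
      have : Tendsto (fun η : ℝ => η * (R + 1)) (𝓝 0) (𝓝 (0 * (R + 1))) :=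
        (continuous_id.mul continuous_const).tendsto 0
      rw [zero_mul] at this
      exact nhdsWithin_le_nhds (this.eventually (Iio_mem_nhds (hρ j)))
    obtain ⟨η, a, b, c, d⟩ := (e0.and (e1.and (e2.and e3))).exists
    exact ⟨η, a, b, c, d⟩
  have hk : ∀ s ∈ t.powerset, ∃ k : E n ≃ₜ E n, k ∈ Diffeos n 1 ∧ ∀ x, k x = x - η • v s x := by
    intro s hs
    obtain ⟨k, hk1, hk2⟩ := h2 n (fun x => -(η • v s x)) ((hvC s).const_smul η).neg (by
      refine LipschitzWith.of_dist_le_mul fun x y => ?_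
      rw [dist_neg_neg, dist_smul₀, Real.norm_eq_abs, abs_of_pos hη0]
      have e1 := (hC s).dist_le_mul x y
      have e2 := hηC s hs
      have e3 : ((1 / 2 : NNReal) : ℝ) = 1 / 2 := by norm_num
      rw [e3]
      calc η * dist (v s x) (v s y) ≤ η * (C s * dist x y) := mul_le_mul_of_nonneg_left e1 hη0.le
        _ = (η * C s) * dist x y := by ring
        _ ≤ 1 / 2 * dist x y := mul_le_mul_of_nonneg_right e2 dist_nonneg)
    exact ⟨k, hk1, fun x => by rw [hk2]; abel⟩
  choose! k hkD hkx using hk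
  have hstep : ∀ s : Finset (E n), s ⊆ t → h * k s * h⁻¹ ∈ Cl n := by
    intro s
    induction s using Finset.induction_on with
    | empty =>
      intro hs
      have e1 : k ∅ = 1 := by
        ext1 x
        rw [hkx ∅ (Finset.mem_powerset.2 hs) x]
        simp [v]
      rw [e1, mul_one, mul_inv_cancel]
      exact cl_one
    | insert j s hj ih =>
      intro hs
      have hs' : s ⊆ t := (Finset.subset_insert j s).trans hs
      have hjt : j ∈ t := hs (Finset.mem_insert_self j s)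
      have hps := Finset.mem_powerset.2 hs
      have hps' := Finset.mem_powerset.2 hs'
      have haD : k (insert j s) * (k s)⁻¹ ∈ Diffeos n 1 :=
        Diffeos_mul (hkD _ hps) (diffeo_inv (hkD _ hps'))
      have hfix : ∀ y, y ∉ Metric.ball j (3 * ρ j) → (k (insert j s) * (k s)⁻¹) y = y := by
        intro y hy
        show k (insert j s) ((k s).symm y) = y
        obtain ⟨x, rfl⟩ := (k s).surjective y
        rw [Homeomorph.symm_apply_apply, hkx _ hps]
        have e1 : dist (k s x) x < ρ j := by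
          rw [hkx _ hps', dist_eq_norm, sub_sub_cancel_left, norm_neg, norm_smul, Real.norm_eq_abs,
            abs_of_pos hη0]
          exact (mul_le_mul_of_nonneg_left (hvn s x) hη0.le).trans_lt (hηρ j hjt)
        have e2 : 3 * ρ j ≤ dist (k s x) j := by
          rw [Metric.mem_ball, not_lt] at hy
          exact hy
        have e3 : 2 * ρ j ≤ dist x j := by
          have := dist_triangle (k s x) x j
          linarith
        have e4 : ψ j x = 0 := (ψ j).zero_of_le_dist e3
        have e5 : v (insert j s) x = v s x := by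
          show (1 - ∏ i ∈ insert j s, (1 - ψ i x)) • (χ x • x) = (1 - ∏ i ∈ s, (1 - ψ i x)) • (χ x • x)
          rw [Finset.prod_insert hj, e4, sub_zero, one_mul]
        rw [e5, hkx _ hps']
      have hconj := conj_eq (hgp j) hfix
      have e1 : h * k (insert j s) * h⁻¹ = (h * (k (insert j s) * (k s)⁻¹) * h⁻¹) * (h * k s * h⁻¹) := by
        group
      rw [e1, hconj]
      exact cl_mul (cl_mul (cl_mul (hg j) (cl_of_diffeo haD)) (h1 n _ (hg j))) (ih hs')
  have hκ : ∀ M : ℕ, h * k t ^ M * h⁻¹ ∈ Cl n := by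
    intro M
    have e1 : h * k t ^ M * h⁻¹ = (h * k t * h⁻¹) ^ M := (conj_pow).symm
    rw [e1]
    exact cl_pow (hstep t (Finset.Subset.refl t)) M
  have hpt := Finset.mem_powerset.2 (Finset.Subset.refl t)
  have hkt : ∀ x ∈ Metric.closedBall (0 : E n) R, k t x = (1 - η) • x := by
    intro x hx
    have e1 : χ x = 1 := χ.one_of_mem_closedBall hx
    have hx1 : x ∈ Metric.closedBall (0 : E n) (R + 1) :=
      Metric.closedBall_subset_closedBall (by linarith) hx
    obtain ⟨i, hi, hxi⟩ := Set.mem_iUnion₂.1 (ht hx1)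
    have e2 : ψ i x = 1 := (ψ i).one_of_mem_closedBall (Metric.ball_subset_closedBall hxi)
    have e3 : ∏ i ∈ t, (1 - ψ i x) = 0 := Finset.prod_eq_zero hi (by rw [e2, sub_self])
    rw [hkx t hpt]
    show x - η • ((1 - ∏ i ∈ t, (1 - ψ i x)) • (χ x • x)) = (1 - η) • x
    rw [e1, e3, sub_zero, one_smul, one_smul, sub_smul, one_smul]
  have hpow : ∀ M : ℕ, ∀ x ∈ Metric.closedBall (0 : E n) R, (k t ^ M) x = (1 - η) ^ M • x := by
    intro M
    induction M with
    | zero => intro x _; simp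
    | succ M ih =>
      intro x hx
      rw [pow_succ]
      show (k t ^ M) (k t x) = _
      rw [hkt x hx, ih, smul_smul, pow_succ]
      rw [mem_closedBall_zero_iff] at hx ⊢
      rw [norm_smul, Real.norm_eq_abs, abs_of_pos (by linarith)]
      have := norm_nonneg x
      nlinarith
  obtain ⟨M, hM⟩ : ∃ M : ℕ, (1 - η) ^ M < 3 * ρ 0 / R :=
    exists_pow_lt_of_lt_one (by have := hρ 0; positivity) (by linarith)
  refine ⟨(h * k t ^ M * h⁻¹)⁻¹ * g 0 * k t ^ M,
    cl_mul (cl_mul (h1 n _ (hκ M)) (hg 0)) (cl_pow (cl_of_diffeo (hkD t hpt)) M), fun x hx => ?_⟩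
  have e1 : g 0 ((k t ^ M) x) = h ((k t ^ M) x) := by
    refine (hgp 0 _ ?_).symm
    rw [hpow M x hx, mem_ball_zero_iff, norm_smul, Real.norm_eq_abs,
      abs_of_nonneg (pow_nonneg (by linarith) _)]
    rw [mem_closedBall_zero_iff] at hx
    calc (1 - η) ^ M * ‖x‖ ≤ (1 - η) ^ M * R :=
          mul_le_mul_of_nonneg_left hx (pow_nonneg (by linarith) _)
      _ < 3 * ρ 0 / R * R := mul_lt_mul_of_pos_right hM hR
      _ = 3 * ρ 0 := by field_simp
  show (h * k t ^ M * h⁻¹).symm (g 0 ((k t ^ M) x)) = h x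
  rw [e1, Homeomorph.symm_apply_eq]
  show h ((k t ^ M) x) = h ((k t ^ M) (h.symm (h x)))
  rw [Homeomorph.symm_apply_apply]

end Pool.Agent.J6H73.PL.LG
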